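import Mathlib

set_option autoImplicit false

namespace Pool.Agent.Results.MP_0c87c4_co.SmallCodegree

open Finset

/-- `f 0 → f 1 → ... → f L` is a rainbow directed path with `L` edges -/
def IsRainbowPath {V : Type} (E : V → V → Prop) (col : V → V → ℕ) (L : ℕ) (f : ℕ → V) : Prop :=
  (∀ i, i < L → E (f i) (f (i + 1))) ∧
    (∀ a, a ≤ L → ∀ b, b ≤ L → f a = f b → a = b) ∧
    (∀ a, a < L → ∀ b, b < L → col (f a) (f (a + 1)) = col (f b) (f (b + 1)) → a = b)

open Classical in
theorem core {V : Type} [Fintype V] [Nonempty V] (E : V → V → Prop) (col : V → V → ℕ)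
    (d C M L : ℕ) (hloop : ∀ x, ¬ E x x)
    (hprop : ∀ x y z, E x y → E x z → col x y = col x z → y = z)
    (hout : ∀ x, d ≤ (univ.filter (fun y => E x y)).card)
    (hC : ∀ x y, x ≠ y → (univ.filter (fun z => E x z ∧ E z y)).card ≤ C)
    (hM : 0 < M) (hcond : L - 1 + (C * (L - 1) / M + 1) + M ≤ d) (j : ℕ) :
    j ≤ L → ∃ f : ℕ → V, IsRainbowPath E col j f ∧
      ((range j).filter (fun i => E (f j) (f i))).card ≤ C * (L - 1) / M + 1 := by
  induction j with
  | zero =>
    intro _
    obtain ⟨x⟩ := (inferInstance : Nonempty V)
    refine ⟨fun _ => x, ⟨fun i hi => absurd hi (Nat.not_lt_zero _), fun a ha b hb _ => by omega,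
      fun a ha => absurd ha (Nat.not_lt_zero _)⟩, ?_⟩
    simp
  | succ j ih =>
    intro hj
    obtain ⟨f, ⟨h1, h2, h3⟩, h4⟩ := ih (by omega)
    obtain ⟨B, hB⟩ : ∃ B, B = C * (L - 1) / M + 1 := ⟨_, rfl⟩
    rw [← hB] at h4 hcond ⊢
    let N : Finset V := univ.filter (fun y => E (f j) y)
    let B1 : Finset V := N.filter (fun z => ∃ i, i < j ∧ col (f i) (f (i + 1)) = col (f j) z)
    let B2 : Finset V := N.filter (fun z => ∃ i, i < j ∧ f i = z)
    have hB1 : B1.card ≤ j := by
      have : B1.card ≤ ((range j).image (fun i => col (f i) (f (i + 1)))).card := by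
        apply Finset.card_le_card_of_injOn (fun z => col (f j) z)
        · intro z hz
          obtain ⟨-, i, hi, he⟩ := Finset.mem_filter.1 (show z ∈ B1 from hz)
          show col (f j) z ∈ (((range j).image (fun i => col (f i) (f (i + 1))) : Finset ℕ) : Set ℕ)
          rw [Finset.mem_coe]
          exact Finset.mem_image.2 ⟨i, Finset.mem_range.2 hi, he⟩
        · intro z hz z' hz' hzz
          have g1 := (Finset.mem_filter.1 (Finset.mem_filter.1 (show z ∈ B1 from hz)).1).2
          have g2 := (Finset.mem_filter.1 (Finset.mem_filter.1 (show z' ∈ B1 from hz')).1).2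
          exact hprop _ _ _ g1 g2 hzz
      refine le_trans this (le_trans Finset.card_image_le ?_)
      rw [Finset.card_range]
    have hB2 : B2.card ≤ B := by
      refine le_trans ?_ h4
      refine le_trans (Finset.card_le_card (t := ((range j).filter
        (fun i => E (f j) (f i))).image f) ?_) Finset.card_image_le
      intro z hz
      obtain ⟨hzN, i, hi, he⟩ := Finset.mem_filter.1 hz
      refine Finset.mem_image.2 ⟨i, ?_, he⟩
      rw [Finset.mem_filter]
      refine ⟨Finset.mem_range.2 hi, ?_⟩
      rw [he]
      exact (Finset.mem_filter.1 hzN).2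
    let Z := N \ (B1 ∪ B2)
    have hZ : M ≤ Z.card := by
      have g1 := Finset.le_card_sdiff (B1 ∪ B2) N
      have g2 := Finset.card_union_le B1 B2
      have g3 : d ≤ N.card := hout (f j)
      have g4 : Z.card = (N \ (B1 ∪ B2)).card := rfl
      omega
    obtain ⟨z, hzZ, hcz⟩ : ∃ z ∈ Z, ((range j).filter (fun i => E z (f i))).card ≤
        C * (L - 1) / M := by
      by_contra hcon
      push Not at hcon
      have g1 : Z.card * B ≤ ∑ z ∈ Z, ((range j).filter (fun i => E z (f i))).card := by
        rw [← smul_eq_mul, ← Finset.sum_const]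
        apply Finset.sum_le_sum
        intro z hz
        have := hcon z hz
        omega
      have g2 : ∑ z ∈ Z, ((range j).filter (fun i => E z (f i))).card =
          ∑ i ∈ range j, (Z.filter (fun z => E z (f i))).card := by
        simp only [Finset.card_filter]
        rw [Finset.sum_comm]
      have g3 : ∑ i ∈ range j, (Z.filter (fun z => E z (f i))).card ≤ ∑ i ∈ range j, C := by
        apply Finset.sum_le_sum
        intro i hi
        rw [Finset.mem_range] at hi
        have hne : f j ≠ f i := by
          intro h
          have := h2 j le_rfl i (by omega) h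
          omega
        refine le_trans (Finset.card_le_card ?_) (hC (f j) (f i) hne)
        intro z hz
        rw [Finset.mem_filter] at hz
        rw [Finset.mem_filter]
        exact ⟨Finset.mem_univ _, (Finset.mem_filter.1 (Finset.mem_sdiff.1 hz.1).1).2, hz.2⟩
      rw [Finset.sum_const, Finset.card_range, smul_eq_mul] at g3
      have g4 : C * (L - 1) < M * B := by
        rw [hB]
        exact Nat.lt_mul_div_succ _ hM
      have g5 : M * B ≤ Z.card * B := Nat.mul_le_mul_right _ hZ
      have g6 : j * C ≤ C * (L - 1) := by
        rw [mul_comm]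
        exact Nat.mul_le_mul_left _ (by omega)
      omega
    have hzN : E (f j) z := (Finset.mem_filter.1 (Finset.mem_sdiff.1 hzZ).1).2
    have hznot := (Finset.mem_sdiff.1 hzZ).2
    rw [Finset.mem_union, not_or] at hznot
    have hzcol : ∀ i, i < j → col (f i) (f (i + 1)) ≠ col (f j) z := by
      intro i hi he
      exact hznot.1 (Finset.mem_filter.2 ⟨(Finset.mem_sdiff.1 hzZ).1, i, hi, he⟩)
    have hzver : ∀ i, i ≤ j → f i ≠ z := by
      intro i hi he
      rcases Nat.lt_or_ge i j with h | h
      · exact hznot.2 (Finset.mem_filter.2 ⟨(Finset.mem_sdiff.1 hzZ).1, i, h, he⟩)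
      · have : i = j := by omega
        subst this
        rw [he] at hzN
        exact hloop z hzN
    refine ⟨fun i => if i ≤ j then f i else z, ⟨?_, ?_, ?_⟩, ?_⟩
    · intro i hi
      simp only
      rcases Nat.lt_or_ge i j with h | h
      · rw [if_pos (by omega), if_pos (by omega)]
        exact h1 i h
      · have : i = j := by omega
        subst this
        rw [if_pos le_rfl, if_neg (by omega)]
        exact hzN
    · intro a ha b hb hab
      simp only at hab
      by_cases h5 : a ≤ j
      · by_cases h6 : b ≤ j
        · rw [if_pos h5, if_pos h6] at hab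
          exact h2 a h5 b h6 hab
        · rw [if_pos h5, if_neg h6] at hab
          exact absurd hab (hzver a h5)
      · by_cases h6 : b ≤ j
        · rw [if_neg h5, if_pos h6] at hab
          exact absurd hab.symm (hzver b h6)
        · omega
    · intro a ha b hb hab
      simp only at hab
      rcases Nat.lt_or_ge a j with h5 | h5
      · rcases Nat.lt_or_ge b j with h6 | h6
        · rw [if_pos (by omega), if_pos (by omega), if_pos (by omega), if_pos (by omega)] at hab
          exact h3 a h5 b h6 hab
        · have : b = j := by omega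
          subst this
          rw [if_pos (by omega), if_pos (by omega), if_pos le_rfl, if_neg (by omega)] at hab
          exact absurd hab (hzcol a h5)
      · have : a = j := by omega
        subst this
        rcases Nat.lt_or_ge b a with h6 | h6
        · rw [if_pos le_rfl, if_neg (by omega), if_pos (by omega), if_pos (by omega)] at hab
          exact absurd hab.symm (hzcol b h6)
        · omega
    · have : (range (j + 1)).filter (fun i => E ((fun i => if i ≤ j then f i else z) (j + 1))
          ((fun i => if i ≤ j then f i else z) i)) ⊆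
          insert j ((range j).filter (fun i => E z (f i))) := by
        intro i hi
        rw [Finset.mem_filter, Finset.mem_range] at hi
        rw [Finset.mem_insert, Finset.mem_filter, Finset.mem_range]
        obtain ⟨h5, h6⟩ := hi
        simp only at h6
        rw [if_neg (by omega), if_pos (by omega)] at h6
        rcases Nat.lt_or_ge i j with h | h
        · exact Or.inr ⟨h, h6⟩
        · exact Or.inl (by omega)
      have g1 := Finset.card_le_card this
      have g2 := Finset.card_insert_le j ((range j).filter (fun i => E z (f i)))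
      omega

open Classical in
/-- If every out-degree is at least `d`, out-edges at a vertex have distinct colours, and any two
distinct vertices `x, y` have at most `C` vertices `z` with `x → z → y`, then there is a rainbow
directed path with `d - 2 s` edges whenever `s ≥ 1` and `C d ≤ s ^ 2`. -/
theorem result (V : Type) [Fintype V] [Nonempty V] (E : V → V → Prop) (col : V → V → ℕ)
    (d C s : ℕ) (hloop : ∀ x, ¬ E x x)
    (hprop : ∀ x y z, E x y → E x z → col x y = col x z → y = z)
    (hout : ∀ x, d ≤ (univ.filter (fun y => E x y)).card)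
    (hC : ∀ x y, x ≠ y → (univ.filter (fun z => E x z ∧ E z y)).card ≤ C)
    (hs : 1 ≤ s) (hCs : C * d ≤ s ^ 2) :
    ∃ f : ℕ → V, IsRainbowPath E col (d - 2 * s) f := by
  rcases Nat.lt_or_ge (2 * s) d with h | h
  · have h1 : C * (d - 2 * s - 1) / s ≤ s := by
      rw [Nat.div_le_iff_le_mul_add_pred (by omega)]
      have h2 : C * (d - 2 * s - 1) ≤ C * d := Nat.mul_le_mul_left _ (by omega)
      have h3 : s ^ 2 = s * s := by ring
      omega
    obtain ⟨f, hf, -⟩ := core E col d C s (d - 2 * s) hloop hprop hout hC (by omega)
      (by omega) (d - 2 * s) le_rfl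
    exact ⟨f, hf⟩
  · have h0 : d - 2 * s = 0 := by omega
    rw [h0]
    obtain ⟨x⟩ := (inferInstance : Nonempty V)
    exact ⟨fun _ => x, fun i hi => absurd hi (Nat.not_lt_zero _), fun a ha b hb _ => by omega,
      fun a ha => absurd ha (Nat.not_lt_zero _)⟩

end Pool.Agent.Results.MP_0c87c4_co.SmallCodegree
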